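import Pool.Agent.W826.UCC9
import Pool.Agent.W829.UC.Fin2

/-!
# MP_566bac_pr: many translates along a ray, and the space of harmonic functions

`ae_ray`: almost surely, for every `t` and `n` there is `m ≥ n` such that the configuration
translated by `t - (m, 0)` is in a given set of positive probability.
-/

set_option autoImplicit false
set_option linter.all false

open MeasureTheory Set
open Pool.Agent.H978R2 Pool.Agent.W829.UC Pool.Agent.W826.UCC9
open scoped symmDiff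

namespace Pool.Agent.Y841.UC

theorem ray0 (p : NNReal) (hp : p ≤ 1) (E : Set (Sym2 (ℤ × ℤ) → Bool))
    (hE : MeasurableSet E) (hpos : 0 < mu p hp E) :
    ∀ᵐ ω ∂(mu p hp), ∃ m : ℕ, shiftC (-(m : ℤ), 0) ω ∈ E := by
  classical
  set μ := mu p hp with hμ
  haveI : IsProbabilityMeasure μ := by rw [hμ]; infer_instance
  set B : Set (Sym2 (ℤ × ℤ) → Bool) := {ω | ∀ m : ℕ, shiftC (-(m : ℤ), 0) ω ∉ E} with hB
  have hBm : MeasurableSet B := by
    have : B = ⋂ m : ℕ, (shiftC (-(m : ℤ), 0)) ⁻¹' Eᶜ := by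
      ext ω; simp [hB]
    rw [this]
    exact MeasurableSet.iInter fun m => (shift_mp p hp _).measurable hE.compl
  have hinv : ∀ R : ℤ, 0 ≤ R → B ⊆ (shiftC (-R, 0)) ⁻¹' B := by
    intro R hR ω hω m
    obtain ⟨r, rfl⟩ : ∃ r : ℕ, R = r := ⟨R.toNat, (Int.toNat_of_nonneg hR).symm⟩
    rw [shift_shift]
    have := hω (m + r)
    have he : ((-(m : ℤ), (0 : ℤ)) : ℤ × ℤ) + (-(r : ℤ), 0) = (-((m + r : ℕ) : ℤ), 0) := by
      ext
      · push_cast; simp; ring
      · simp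
    rw [he]; exact this
  set b : ℝ := μ.real B with hb
  have key : ∀ ε : ℝ, 0 < ε → b ≤ (b + ε) ^ 2 + 2 * ε := by
    intro ε hε
    obtain ⟨B', hB'C, hB'⟩ := exists_measure_symmDiff_lt_of_generateFrom_isSetRing (μ := μ)
      (C := measurableCylinders (fun _ : Sym2 (ℤ × ℤ) => Bool)) isSetRing_measurableCylinders
      ⟨{univ}, countable_singleton _, by
        rw [singleton_subset_iff]; exact univ_mem_measurableCylinders _, by simp⟩
      generateFrom_measurableCylinders.symm hBm (ε := ENNReal.ofReal ε) (by simpa using hε)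
    have hB'm : MeasurableSet B' := MeasurableSet.of_mem_measurableCylinders hB'C
    have hε1 : μ.real (B' ∆ B) ≤ ε := ENNReal.toReal_le_of_le_ofReal hε.le hB'.le
    obtain ⟨J, S, hS, rfl⟩ := (mem_measurableCylinders _).1 hB'C
    have dJ : DepOn (J : Set (Sym2 (ℤ × ℤ))) (cylinder J S) := by
      intro ω ω' h
      rw [mem_cylinder, mem_cylinder]
      have : J.restrict ω = J.restrict ω' := by
        funext i
        exact h i i.2
      rw [this]
    -- a large translation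
    set R : ℤ := 1 + ∑ e ∈ J, |gg e| with hR
    have hR0 : 0 ≤ R := by
      have : 0 ≤ ∑ e ∈ J, |gg e| := Finset.sum_nonneg fun e _ => abs_nonneg _
      omega
    have hRb : ∀ e ∈ J, |gg e| < R := by
      intro e he
      have := Finset.single_le_sum (f := fun e => |gg e|) (fun _ _ => abs_nonneg _) he
      have h2 : |gg e| ≤ ∑ e ∈ J, |gg e| := this
      omega
    set t : ℤ × ℤ := (-R, 0) with ht
    have dJ' : DepOn ((J.image (Sym2.map (fun x => x + t)) : Finset (Sym2 (ℤ × ℤ))) :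
        Set (Sym2 (ℤ × ℤ))) ((shiftC t) ⁻¹' (cylinder J S)) := by
      intro ω ω' h
      refine dJ _ _ ?_
      intro i hi
      apply h
      rw [Finset.mem_coe, Finset.mem_image]
      exact ⟨i, hi, rfl⟩
    have hdis : Disjoint (J : Set (Sym2 (ℤ × ℤ)))
        ((J.image (Sym2.map (fun x => x + t)) : Finset (Sym2 (ℤ × ℤ))) : Set (Sym2 (ℤ × ℤ))) := by
      rw [Set.disjoint_left]
      intro e he he'
      rw [Finset.mem_coe, Finset.mem_image] at he'
      obtain ⟨e', he', rfl⟩ := he'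
      have h1 := hRb _ he
      have h2 := hRb _ he'
      rw [gg_map, abs_lt] at h1
      rw [abs_lt] at h2
      have : t.1 = -R := rfl
      omega
    have hind := bm_inter p hp hdis hB'm ((shift_mp p hp t).measurable hB'm) dJ dJ'
    have hpres : μ ((shiftC t) ⁻¹' (cylinder J S)) = μ (cylinder J S) :=
      (shift_mp p hp t).measure_preimage hB'm.nullMeasurableSet
    have hsq : μ.real (cylinder J S ∩ (shiftC t) ⁻¹' (cylinder J S)) = μ.real (cylinder J S) ^ 2 := by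
      have e1 : μ (cylinder J S ∩ (shiftC t) ⁻¹' (cylinder J S)) =
          μ (cylinder J S) * μ (cylinder J S) := by
        have : μ (cylinder J S ∩ (shiftC t) ⁻¹' (cylinder J S)) =
          μ (cylinder J S) * μ ((shiftC t) ⁻¹' (cylinder J S)) := hind
        rw [this, hpres]
      unfold Measure.real
      rw [e1, ENNReal.toReal_mul, sq]
    have hd1 : μ.real (B \ cylinder J S) ≤ ε := by
      refine le_trans (measureReal_mono ?_ (measure_ne_top _ _)) hε1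
      intro ω hω
      exact Or.inr hω
    have hd2 : μ.real ((shiftC t) ⁻¹' (B \ cylinder J S)) ≤ ε := by
      have : μ ((shiftC t) ⁻¹' (B \ cylinder J S)) = μ (B \ cylinder J S) :=
        (shift_mp p hp t).measure_preimage (hBm.diff hB'm).nullMeasurableSet
      unfold Measure.real at hd1 ⊢
      rwa [this]
    have hB'b : μ.real (cylinder J S) ≤ b + ε := by
      have h1 : cylinder J S ⊆ B ∪ (cylinder J S ∆ B) := by
        intro ω hω
        by_cases h : ω ∈ B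
        · exact Or.inl h
        · exact Or.inr (Or.inl ⟨hω, h⟩)
      have h2 := (measureReal_mono (μ := μ) h1 (measure_ne_top _ _)).trans (measureReal_union_le _ _)
      linarith
    have hsub : B ⊆ (cylinder J S ∩ (shiftC t) ⁻¹' (cylinder J S)) ∪
        ((B \ cylinder J S) ∪ (shiftC t) ⁻¹' (B \ cylinder J S)) := by
      intro ω hω
      by_cases h1 : ω ∈ cylinder J S
      · by_cases h2 : shiftC t ω ∈ cylinder J S
        · exact Or.inl ⟨h1, h2⟩
        · right; right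
          exact ⟨hinv R hR0 hω, h2⟩
      · exact Or.inr (Or.inl ⟨hω, h1⟩)
    have h3 := (measureReal_mono (μ := μ) hsub (measure_ne_top _ _)).trans
      ((measureReal_union_le _ _).trans (add_le_add_right (measureReal_union_le _ _) _))
    have h4 : μ.real (cylinder J S) ^ 2 ≤ (b + ε) ^ 2 :=
      pow_le_pow_left₀ measureReal_nonneg hB'b 2
    rw [hsq] at h3
    linarith
  have hb0 : 0 ≤ b := measureReal_nonneg
  -- B misses E
  have hbE : b ≤ 1 - μ.real E := by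
    have h1 : B ⊆ Eᶜ := by
      intro ω hω hωE
      apply hω 0
      have : shiftC (-((0 : ℕ) : ℤ), 0) ω = ω := by
        funext e
        unfold shiftC
        have h0 : ((-((0 : ℕ) : ℤ), (0 : ℤ)) : ℤ × ℤ) = 0 := by simp
        rw [h0]
        simp
      rw [this]
      exact hωE
    have h2 := measureReal_mono (μ := μ) h1 (measure_ne_top _ _)
    rwa [measureReal_compl hE, probReal_univ] at h2
  have hE0 : 0 < μ.real E := ENNReal.toReal_pos hpos.ne' (measure_ne_top _ _)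
  have hb1 : b < 1 := by linarith
  have hbz : b = 0 := by
    by_contra hne
    have hbp : 0 < b := lt_of_le_of_ne hb0 (Ne.symm hne)
    have hq : 0 < b * (1 - b) := by
      have : 0 < 1 - b := by linarith
      positivity
    have h5 := key (b * (1 - b) / 8) (by positivity)
    have h6 : b * (1 - b) / 8 ≤ 1 / 8 := by nlinarith
    nlinarith
  have h7 : μ B = 0 := (measureReal_eq_zero_iff (measure_ne_top _ _)).1 hbz
  have h8 : ∀ᵐ ω ∂μ, ω ∉ B := measure_eq_zero_iff_ae_notMem.1 h7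
  filter_upwards [h8] with ω hω
  by_contra hcon
  push Not at hcon
  exact hω hcon

theorem ae_ray (p : NNReal) (hp : p ≤ 1) (E : Set (Sym2 (ℤ × ℤ) → Bool))
    (hE : MeasurableSet E) (hpos : 0 < mu p hp E) :
    ∀ᵐ ω ∂(mu p hp), ∀ (t : ℤ × ℤ) (n : ℕ), ∃ m : ℕ, n ≤ m ∧
      shiftC (t.1 - (m : ℤ), t.2) ω ∈ E := by
  rw [ae_all_iff]
  intro t
  rw [ae_all_iff]
  intro n
  have h := (shift_mp p hp (t.1 - (n : ℤ), t.2)).quasiMeasurePreserving.ae (ray0 p hp E hE hpos)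
  filter_upwards [h] with ω hω
  obtain ⟨m, hm⟩ := hω
  refine ⟨n + m, by omega, ?_⟩
  rw [shift_shift] at hm
  have he : ((-(m : ℤ), (0 : ℤ)) : ℤ × ℤ) + (t.1 - (n : ℤ), t.2) =
      (t.1 - ((n + m : ℕ) : ℤ), t.2) := by
    ext
    · push_cast; simp; ring
    · simp
  rwa [he] at hm

/-! ### one function -/

lemma infV_shift (s : ℤ × ℤ) (ω : Sym2 (ℤ × ℤ) → Bool) (x : ℤ × ℤ) :
    x ∈ InfV (shiftC s ω) ↔ x + s ∈ InfV ω := by
  have hinj : Function.Injective (fun x : ℤ × ℤ => x + s) := add_left_injective s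
  have : {y | (og ω).Reachable (x + s) y} =
      (fun y => y + s) '' {y | (og (shiftC s ω)).Reachable x y} := by
    ext y
    constructor
    · intro hy
      refine ⟨y - s, ?_, by simp⟩
      rw [Set.mem_setOf_eq, shiftC_reach, sub_add_cancel]
      exact hy
    · rintro ⟨z, hz, rfl⟩
      exact (shiftC_reach s ω x z).1 hz
  show {y | (og (shiftC s ω)).Reachable x y}.Infinite ↔ {y | (og ω).Reachable (x + s) y}.Infinite
  rw [this, Set.infinite_image_iff hinj.injOn]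

theorem det_one (hA5 : S_A5) (hB2 : S_B2) (hB3 : S_B3) (hB1 : S_B1) {A : ℤ} (hA : 2 ≤ A)
    {ω : Sym2 (ℤ × ℤ) → Bool} (h0 : E0 A (og ω)) (hp : Qs A 1 (og ω)) (hm : Qs A (-1) (og ω))
    (hu : ∀ u ∈ InfV ω, ∀ v ∈ InfV ω, (og ω).Reachable u v)
    (hi : ∃ i : ℤ, 1 ≤ i ∧ (-i, 0) ∈ InfV ω) :
    ∃ (h : ℤ × ℤ → ℝ) (z : ℤ × ℤ), HarmonicOn ω (InfV ω) h ∧ (∀ x ∈ Zw A, h x = 0) ∧
      z ∈ InfV ω ∧ h z = 1 := by
  classical
  obtain ⟨i, hi1, hi2⟩ := hi
  have hG : og ω ≤ lat := fun x y h => h.1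
  have h1 := hB3 A hA (og ω) hG h0 hp hm i hi1 hi2
  obtain ⟨g, y0, hg1, hg2, hg3⟩ := hB2 A hA (og ω) hG _ h1
  have hC := infComp_InfV ⟨_, hi2⟩ hu
  have hz : (g y0, y0) ∈ InfV ω := by
    by_contra hz
    refine hg3 ((hB1 (ℤ × ℤ) (og ω)).2.2.2.2.1 (Rg g) (g y0, y0) ?_)
    exact Set.not_infinite.1 hz
  obtain ⟨h, hh1, hh2, hh3⟩ := hA5 (og ω) (InfV ω) hG hC g y0 hg2 hz hg3
  exact ⟨h, (g y0, y0), harm_avg hC hh1, fun x hx => hh2 x (hg1 hx), hz, hh3⟩

/-- the same for a translated configuration -/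
theorem shift_one {A : ℤ} (s : ℤ × ℤ) (ω : Sym2 (ℤ × ℤ) → Bool)
    (h : ∃ (h : ℤ × ℤ → ℝ) (z : ℤ × ℤ), HarmonicOn (shiftC s ω) (InfV (shiftC s ω)) h ∧
      (∀ x ∈ Zw A, h x = 0) ∧ z ∈ InfV (shiftC s ω) ∧ h z = 1) :
    ∃ (h : ℤ × ℤ → ℝ) (z : ℤ × ℤ), HarmonicOn ω (InfV ω) h ∧ (∀ x, x - s ∈ Zw A → h x = 0) ∧
      z ∈ InfV ω ∧ h z = 1 := by
  classical
  obtain ⟨h, z, hh, h0, hz, h1⟩ := h
  refine ⟨fun x => h (x - s), z + s, ?_, fun x hx => h0 _ hx, (infV_shift s ω z).1 hz, by simpa using h1⟩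
  intro x hx
  have hx' : x - s ∈ InfV (shiftC s ω) := by rw [infV_shift, sub_add_cancel]; exact hx
  have e1 := hh (x - s) hx'
  have e2 := oN_shift s (x - s) ω
  rw [sub_add_cancel] at e2
  have hinj : Function.Injective (fun x : ℤ × ℤ => x + s) := add_left_injective s
  rw [e2, Finset.sum_image (fun a _ b _ hab => hinj hab), Finset.card_image_of_injective _ hinj]
  simpa using e1

/-! ### interpolation -/

/-- solution of a triangular system -/
noncomputable def cc (a : ℕ → ℝ) (F : ℕ → ℕ → ℝ) : ℕ → ℝ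
  | k => a k - ∑ n : Fin k, cc a F n * F n k
termination_by k => k
decreasing_by exact n.2

lemma cc_spec (a : ℕ → ℝ) (F : ℕ → ℕ → ℝ) (hF : ∀ k, F k k = 1) (k : ℕ) :
    ∑ n ∈ Finset.range (k + 1), cc a F n * F n k = a k := by
  rw [Finset.sum_range_succ, hF k, mul_one]
  have h : cc a F k = a k - ∑ n : Fin k, cc a F n * F n k := by rw [cc]
  rw [h, ← Fin.sum_univ_eq_sum_range (fun n => cc a F n * F n k) k]
  ring

theorem interp (ω : Sym2 (ℤ × ℤ) → Bool) (f : ℕ → ℤ × ℤ → ℝ) (z : ℕ → ℤ × ℤ)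
    (hf : ∀ n, HarmonicOn ω (InfV ω) (f n)) (h1 : ∀ n, f n (z n) = 1)
    (h0 : ∀ n k, k < n → f n (z k) = 0) (hfin : ∀ y, ∃ N, ∀ n, N ≤ n → f n y = 0) (a : ℕ → ℝ) :
    ∃ h : ℤ × ℤ → ℝ, HarmonicOn ω (InfV ω) h ∧ (∀ y, (∀ n, f n y = 0) → h y = 0) ∧
      ∀ n, h (z n) = a n := by
  classical
  choose N hN using hfin
  set c := cc a (fun n k => f n (z k)) with hc
  have hcs : ∀ k, ∑ n ∈ Finset.range (k + 1), c n * f n (z k) = a k :=
    fun k => cc_spec a (fun n k => f n (z k)) h1 k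
  set h : ℤ × ℤ → ℝ := fun y => ∑ n ∈ Finset.range (N y), c n * f n y with hh
  have hM : ∀ y M, (∀ n, M ≤ n → f n y = 0) → h y = ∑ n ∈ Finset.range M, c n * f n y := by
    intro y M hMy
    rcases le_total M (N y) with hle | hle
    · refine (Finset.sum_subset (Finset.range_mono hle) fun n _ hn => ?_).symm
      rw [hMy n (by simpa using hn), mul_zero]
    · refine Finset.sum_subset (Finset.range_mono hle) fun n _ hn => ?_
      rw [hN y n (by simpa using hn), mul_zero]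
  refine ⟨h, ?_, ?_, ?_⟩
  · intro x hx
    set M := N x + ∑ y ∈ oN ω x, N y with hMdef
    have e1 : h x = ∑ n ∈ Finset.range M, c n * f n x :=
      hM x M fun n hn => hN x n (by omega)
    have e2 : ∀ y ∈ oN ω x, h y = ∑ n ∈ Finset.range M, c n * f n y := by
      intro y hy
      refine hM y M fun n hn => hN y n ?_
      have := Finset.single_le_sum (f := fun y => N y) (fun _ _ => Nat.zero_le _) hy
      have h3 : N y ≤ ∑ y ∈ oN ω x, N y := this
      omega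
    rw [e1, Finset.sum_congr rfl e2, Finset.sum_comm, Finset.sum_div]
    refine Finset.sum_congr rfl fun n _ => ?_
    rw [← Finset.mul_sum, hf n x hx, mul_div_assoc]
  · intro y hy
    show ∑ n ∈ Finset.range (N y), c n * f n y = 0
    exact Finset.sum_eq_zero fun n _ => by rw [hy n, mul_zero]
  · intro k
    rw [hM (z k) (k + 1) fun n hn => h0 n k (by omega)]
    exact hcs k

/-! ### the sequence -/

theorem seq_abs {X : Type*} (V : ℕ → Set X) (hVm : ∀ m m', m ≤ m' → V m ⊆ V m')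
    (hVex : ∀ x, ∃ m, x ∈ V m) (P : (X → ℝ) → X → Prop)
    (h : ∀ n : ℕ, ∃ m : ℕ, n ≤ m ∧ ∃ (f : X → ℝ) (z : X), P f z ∧ ∀ x ∈ V m, f x = 0) :
    ∃ (f : ℕ → X → ℝ) (z : ℕ → X), (∀ n, P (f n) (z n)) ∧ (∀ n k, k < n → f n (z k) = 0) ∧
      (∀ y, ∃ N, ∀ n, N ≤ n → f n y = 0) ∧ ∀ x ∈ V 0, ∀ n, f n x = 0 := by
  choose mm hmm ff zz hP h0 using h
  choose ee hee using hVex
  obtain ⟨i, hi⟩ : ∃ i : ℕ → ℕ, ∀ n, i (n + 1) = mm (i n) + 1 + ee (zz (i n)) :=
    ⟨fun n => (fun j => mm j + 1 + ee (zz j))^[n] 0,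
      fun n => Function.iterate_succ_apply' (fun j => mm j + 1 + ee (zz j)) n 0⟩
  have hlt : ∀ n, i n < i (n + 1) := by
    intro n
    have h1 := hi n
    have h2 := hmm (i n)
    omega
  have hmono : StrictMono i := strictMono_nat_of_lt_succ hlt
  have hid : ∀ n, n ≤ i n := hmono.id_le
  refine ⟨fun n => ff (i n), fun n => zz (i n), fun n => hP (i n), ?_, ?_, ?_⟩
  · intro n k hk
    apply h0 (i n)
    have h1 : i (k + 1) ≤ i n := hmono.monotone hk
    have h2 := hi k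
    have h3 := hmm (i n)
    exact hVm (ee (zz (i k))) (mm (i n)) (by omega) (hee (zz (i k)))
  · intro y
    refine ⟨ee y, fun n hn => ?_⟩
    apply h0 (i n)
    have h1 := hid n
    have h3 := hmm (i n)
    exact hVm (ee y) (mm (i n)) (by omega) (hee y)
  · intro x hx n
    exact h0 (i n) x (hVm 0 (mm (i n)) (Nat.zero_le _) hx)

/-- the translated wedges -/
def VV (A : ℤ) (t : ℤ × ℤ) (m : ℕ) : Set (ℤ × ℤ) :=
  {x | x - ((t.1 - (m : ℤ), t.2) : ℤ × ℤ) ∈ Zw A}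

lemma mem_VV {A : ℤ} {t : ℤ × ℤ} {m : ℕ} {x : ℤ × ℤ} : x ∈ VV A t m ↔
    0 ≤ x.1 - (t.1 - m) ∧ A * (|x.2 - t.2| - 1) < x.1 - (t.1 - m) := Iff.rfl

lemma VV_mono {A : ℤ} {t : ℤ × ℤ} {m m' : ℕ} (h : m ≤ m') : VV A t m ⊆ VV A t m' := by
  intro x hx
  have hmm' : (m : ℤ) ≤ m' := by exact_mod_cast h
  rw [mem_VV] at hx ⊢
  exact ⟨by linarith [hx.1], by linarith [hx.2]⟩

lemma VV_zero {A : ℤ} {t : ℤ × ℤ} {x : ℤ × ℤ} (hx : x - t ∈ Zw A) : x ∈ VV A t 0 := by
  obtain ⟨a1, a2⟩ := hx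
  rw [Prod.fst_sub] at a1 a2
  rw [Prod.snd_sub] at a2
  rw [mem_VV]
  exact ⟨by push_cast; linarith, by push_cast; linarith⟩

lemma VV_ex {A : ℤ} (hA : 2 ≤ A) (t : ℤ × ℤ) (x : ℤ × ℤ) : ∃ m, x ∈ VV A t m := by
  have h2 : 0 ≤ A * |x.2 - t.2| := mul_nonneg (by linarith) (abs_nonneg _)
  have hnn : 0 ≤ |x.1 - t.1| + A * |x.2 - t.2| := add_nonneg (abs_nonneg _) h2
  obtain ⟨m, hm⟩ := Int.eq_ofNat_of_zero_le hnn
  refine ⟨m, ?_⟩
  rw [mem_VV]
  have h1 := neg_abs_le (x.1 - t.1)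
  have h3 : |x.1 - t.1| + A * |x.2 - t.2| = (m : ℤ) := hm
  refine ⟨by linarith, ?_⟩
  have h4 : A * (|x.2 - t.2| - 1) = A * |x.2 - t.2| - A := by ring
  rw [h4]
  linarith

theorem seq_part {A : ℤ} (hA : 2 ≤ A) (ω : Sym2 (ℤ × ℤ) → Bool) (t : ℤ × ℤ)
    (h : ∀ n : ℕ, ∃ m : ℕ, n ≤ m ∧ ∃ (h : ℤ × ℤ → ℝ) (z : ℤ × ℤ), HarmonicOn ω (InfV ω) h ∧
      (∀ x, x - ((t.1 - (m : ℤ), t.2) : ℤ × ℤ) ∈ Zw A → h x = 0) ∧ z ∈ InfV ω ∧ h z = 1) :
    ∃ z : ℕ → ℤ × ℤ, Function.Injective z ∧ (∀ n, z n ∈ InfV ω) ∧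
      ∀ a : ℕ → ℝ, ∃ h : ℤ × ℤ → ℝ, HarmonicOn ω (InfV ω) h ∧
        (∀ x, x - t ∈ Zw A → h x = 0) ∧ ∀ n, h (z n) = a n := by
  obtain ⟨f, z, hP, hz, hfin, h0⟩ := seq_abs (VV A t) (fun m m' hm => VV_mono hm) (VV_ex hA t)
    (fun f z => HarmonicOn ω (InfV ω) f ∧ z ∈ InfV ω ∧ f z = 1) (fun n => by
      obtain ⟨m, hm, f, z, c1, c2, c3, c4⟩ := h n
      exact ⟨m, hm, f, z, ⟨c1, c3, c4⟩, fun x hx => c2 x hx⟩)
  refine ⟨z, ?_, fun n => (hP n).2.1, fun a => ?_⟩
  · intro n k hnk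
    by_contra hne
    rcases lt_or_gt_of_ne hne with hlt | hlt
    · have h1 := hz k n hlt
      rw [hnk, (hP k).2.2] at h1
      exact one_ne_zero h1
    · have h1 := hz n k hlt
      rw [← hnk, (hP n).2.2] at h1
      exact one_ne_zero h1
  · obtain ⟨h, e1, e2, e3⟩ := interp ω f z (fun n => (hP n).1) (fun n => (hP n).2.2) hz hfin a
    exact ⟨h, e1, fun x hx => e2 x fun n => h0 x (VV_zero hx) n, e3⟩

end Pool.Agent.Y841.UC
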